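import Pool.Agent.KS6_68.El.Sig
import Pool.Agent.KS6_68.El.KI

set_option autoImplicit false

open Complex Filter Topology Set

namespace Pool.Agent.KS6_68.El

variable (L : PeriodPair)

/-- the Weierstrass function of the lattice -/
noncomputable abbrev wp (z : ℂ) : ℂ := L.weierstrassP z

theorem wp_neg (z : ℂ) : wp L (-z) = wp L z := L.weierstrassP_neg z

theorem wp_add {l : ℂ} (hl : l ∈ L.lattice) (z : ℂ) : wp L (z + l) = wp L z :=
  L.weierstrassP_add_coe z ⟨l, hl⟩

theorem add_mem_Lam {l : ℂ} (hl : l ∈ L.lattice) (z : ℂ) : z + l ∈ L.lattice ↔ z ∈ L.lattice :=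
  L.lattice.add_mem_iff_left hl

theorem compl_open : IsOpen ((L.lattice : Set ℂ)ᶜ) := L.isClosed_lattice.isOpen_compl

theorem compl_preconn : IsPreconnected ((L.lattice : Set ℂ)ᶜ) :=
  wp_inj_conn _ (wp_inj_count L)

theorem zt_lat {l : ℂ} (hl : l ∈ L.lattice) : ∃ c : ℂ, ∀ z ∉ L.lattice, zt L (z + l) = zt L z + c := by
  have A : ∀ z ∉ L.lattice, HasDerivAt (fun z => zt L (z + l) - zt L z) 0 z := by
    intro z hz
    have hzl : z + l ∉ L.lattice := fun h => hz ((add_mem_Lam L hl z).1 h)
    have d1 : HasDerivAt (fun z => zt L (z + l)) (- L.weierstrassP (z + l)) z :=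
      HasDerivAt.comp_add_const z l (zt_deriv L hzl)
    refine (d1.sub (zt_deriv L hz)).congr_deriv ?_
    have : L.weierstrassP (z + l) = L.weierstrassP z := wp_add L hl z
    rw [this]; ring
  obtain ⟨c, hc⟩ := (compl_open L).exists_is_const_of_deriv_eq_zero (compl_preconn L)
    (fun z hz => (A z hz).differentiableAt.differentiableWithinAt) (fun z hz => (A z hz).deriv)
  exact ⟨c, fun z hz => by have := hc z hz; linear_combination this⟩

/-- the function that vanishes by the addition theorem -/
noncomputable def af (a z : ℂ) : ℂ :=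
  (zt L (z + a) - zt L z - zt L a) ^ 2 - wp L (z + a) - wp L z - wp L a

theorem af_symm (a z : ℂ) : af L a (-a - z) = af L a z := by
  unfold af
  have e1 : -a - z + a = -z := by ring
  have e2 : -a - z = -(z + a) := by ring
  rw [e1, e2, zt_neg L, zt_neg L, wp_neg L, wp_neg L]
  ring

theorem af_per (a : ℂ) {l : ℂ} (hl : l ∈ L.lattice) (z : ℂ) (hz : z ∉ L.lattice) (hza : z + a ∉ L.lattice) :
    af L a (z + l) = af L a z := by
  obtain ⟨c, hc⟩ := zt_lat L hl
  unfold af
  have e1 : z + l + a = (z + a) + l := by ring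
  rw [e1, hc _ hz, hc _ hza, wp_add L hl, wp_add L hl]
  ring

theorem B0 : deriv (zE L 0) 0 = 0 := by
  have h := deriv_zE L 0 (show (0 : ℂ) ∈ ((L.lattice : Set ℂ) \ {0})ᶜ by simp)
  rw [h]
  simp

theorem B_an : AnalyticAt ℂ (zE L 0) 0 := by
  apply (diff_zE L 0).analyticAt
  exact L.isOpen_compl_lattice_sdiff.mem_nhds (by simp)

theorem zt_B (z : ℂ) : zt L z = zE L 0 z + 1 / z := by
  have hs1 : Summable (fun l : L.lattice => if l.1 = 0 then 0 else (1 / (z - (l:ℂ)) + 1 / (l:ℂ) + z / (l:ℂ) ^ 2)) :=
    (hs_zE L 0).hasSum.summable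
  have hs2 : Summable (fun l : L.lattice => if l = 0 then (1 / z : ℂ) else 0) :=
    (hasSum_ite_eq (0 : L.lattice) (1 / z : ℂ)).summable
  have e2 : (1 / z : ℂ) = ∑' l : L.lattice, if l = 0 then (1 / z : ℂ) else 0 :=
    (hasSum_ite_eq (0 : L.lattice) (1 / z : ℂ)).tsum_eq.symm
  rw [e2]
  unfold zE zt
  rw [← hs1.tsum_add hs2]
  congr with l
  by_cases h : l = 0
  · subst h
    simp
  · have h' : (l : ℂ) ≠ 0 := by simpa using h
    simp [h]

theorem Lam_near (x : ℂ) : ∀ᶠ z in 𝓝[≠] x, z ∉ L.lattice := by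
  filter_upwards [mem_nhdsWithin_of_mem_nhds (L.compl_lattice_sdiff_singleton_mem_nhds x),
    self_mem_nhdsWithin] with w hw hwz h
  exact hw ⟨h, hwz⟩

theorem zt_zero : zt L 0 = 0 := by
  have h := zt_neg L 0
  rw [neg_zero] at h
  exact self_eq_neg.1 h

theorem B_zero : zE L 0 0 = 0 := by
  have h := zt_B L 0
  rw [zt_zero L] at h
  simpa using h.symm

theorem wp_B : ∀ᶠ z in 𝓝[≠] (0 : ℂ), wp L z = 1 / z ^ 2 - deriv (zE L 0) z := by
  have h1 : ∀ᶠ z in 𝓝[≠] (0 : ℂ), AnalyticAt ℂ (zE L 0) z :=
    mem_nhdsWithin_of_mem_nhds (B_an L).eventually_analyticAt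
  filter_upwards [h1, Lam_near L 0, self_mem_nhdsWithin] with z ha hz hz0
  have hz0' : z ≠ 0 := hz0
  have d1 := ha.differentiableAt.hasDerivAt
  have d2 : HasDerivAt (fun z : ℂ => z⁻¹) (-(z ^ 2)⁻¹) z := hasDerivAt_inv hz0'
  have d3 := d1.add d2
  have e : zt L = fun w => zE L 0 w + w⁻¹ := by
    funext w
    rw [zt_B L]; simp
  have d4 := zt_deriv L hz
  rw [e] at d4
  have := d4.unique d3
  have h5 : wp L z = -(-L.weierstrassP z) := by simp
  rw [h5, this]
  field_simp
  ring

theorem af_zero (a : ℂ) (ha : a ∉ L.lattice) : Tendsto (af L a) (𝓝[≠] 0) (𝓝 0) := by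
  set g : ℂ → ℂ := fun z => zt L (z + a) - zt L a - zE L 0 z with hg
  have hd : HasDerivAt g (-wp L a) 0 := by
    have d1 : HasDerivAt (fun z => zt L (z + a)) (- wp L (0 + a)) 0 :=
      HasDerivAt.comp_add_const 0 a (by simpa using zt_deriv L ha)
    have d2 := (B_an L).differentiableAt.hasDerivAt
    rw [B0 L] at d2
    have := (d1.sub_const (zt L a)).sub d2
    rw [zero_add, sub_zero] at this
    exact this
  have hg0 : g 0 = 0 := by simp [hg, B_zero L]
  have h1 : Tendsto g (𝓝[≠] 0) (𝓝 0) := by
    have := hd.continuousAt.tendsto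
    rw [hg0] at this
    exact this.mono_left nhdsWithin_le_nhds
  have h2 : Tendsto (fun z => g z / z) (𝓝[≠] 0) (𝓝 (-wp L a)) := by
    have h := hd.tendsto_slope_zero
    refine h.congr' ?_
    filter_upwards [self_mem_nhdsWithin] with z hz
    rw [zero_add, hg0, sub_zero, smul_eq_mul, div_eq_inv_mul]
  have h3 : Tendsto (fun z => wp L (z + a)) (𝓝[≠] 0) (𝓝 (wp L a)) := by
    have ha' : a ∉ L.lattice := fun h => ha (h)
    have hc : ContinuousAt (wp L) a := (L.analyticOnNhd_weierstrassP a ha').continuousAt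
    have : Tendsto (fun z : ℂ => z + a) (𝓝[≠] 0) (𝓝 a) := by
      have h : Continuous (fun z : ℂ => z + a) := by fun_prop
      have := h.tendsto 0
      rw [zero_add] at this
      exact this.mono_left nhdsWithin_le_nhds
    exact hc.tendsto.comp this
  have h4 : Tendsto (fun z => deriv (zE L 0) z) (𝓝[≠] 0) (𝓝 0) := by
    have := (B_an L).deriv.continuousAt.tendsto
    rw [B0 L] at this
    exact this.mono_left nhdsWithin_le_nhds
  have h5 : Tendsto (fun z => g z ^ 2 - 2 * (g z / z) - wp L (z + a) + deriv (zE L 0) z - wp L a)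
      (𝓝[≠] 0) (𝓝 (0 ^ 2 - 2 * (-wp L a) - wp L a + 0 - wp L a)) :=
    ((((h1.pow 2).sub (h2.const_mul 2)).sub h3).add h4).sub_const _
  have e : (0 : ℂ) ^ 2 - 2 * (-wp L a) - wp L a + 0 - wp L a = 0 := by ring
  rw [e] at h5
  refine h5.congr' ?_
  filter_upwards [wp_B L, self_mem_nhdsWithin] with z hz hz0
  have hz0' : z ≠ 0 := hz0
  simp only [af, hg]
  rw [hz, zt_B L z]
  field_simp
  ring

theorem af_neg_a (a : ℂ) (ha : a ∉ L.lattice) : Tendsto (af L a) (𝓝[≠] (-a)) (𝓝 0) := by
  have h : Tendsto (fun z => -a - z) (𝓝[≠] (-a)) (𝓝[≠] 0) := by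
    refine tendsto_nhdsWithin_of_tendsto_nhds_of_eventually_within _ ?_ ?_
    · have hc : Continuous (fun z : ℂ => -a - z) := by fun_prop
      have := hc.tendsto (-a)
      rw [sub_self] at this
      exact this.mono_left nhdsWithin_le_nhds
    · filter_upwards [self_mem_nhdsWithin] with z hz h
      exact hz (sub_eq_zero.1 h).symm
  have := (af_zero L a ha).comp h
  refine this.congr fun z => ?_
  exact af_symm L a z

theorem af_eq_zero (a : ℂ) (ha : a ∉ L.lattice) (z : ℂ) (hz : z ∉ L.lattice) (hza : z + a ∉ L.lattice) :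
    af L a z = 0 := by
  classical
  set F : ℂ → ℂ := fun z => if z ∈ L.lattice ∨ z + a ∈ L.lattice then 0 else af L a z with hF
  have hFper : ∀ z l, l ∈ L.lattice → F (z + l) = F z := by
    intro z l hl
    have h1 := add_mem_Lam L hl z
    have h2 : z + l + a ∈ L.lattice ↔ z + a ∈ L.lattice := by
      rw [show z + l + a = (z + a) + l by ring]; exact add_mem_Lam L hl _
    simp only [hF, h1, h2]
    split_ifs with h
    · rfl
    · push Not at h
      exact af_per L a hl z h.1 h.2
  have near1 : ∀ x : ℂ, ∀ᶠ z in 𝓝[≠] x, z ∉ L.lattice ∧ z + a ∉ L.lattice := by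
    intro x
    have h1 := Lam_near L x
    have h2 := Lam_near L (x + a)
    have ht : Tendsto (fun z => z + a) (𝓝[≠] x) (𝓝[≠] (x + a)) := by
      refine tendsto_nhdsWithin_of_tendsto_nhds_of_eventually_within _ ?_ ?_
      · exact ((continuous_id.add continuous_const).tendsto x).mono_left nhdsWithin_le_nhds
      · filter_upwards [self_mem_nhdsWithin] with z hz h
        exact hz (by simpa using h)
    exact h1.and (ht.eventually h2)
  have diffOff : ∀ z, z ∉ L.lattice → z + a ∉ L.lattice → DifferentiableAt ℂ F z := by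
    intro z hz hza
    have hd : DifferentiableAt ℂ (af L a) z := by
      have hz' : z ∉ L.lattice := fun h => hz (h)
      have hza' : z + a ∉ L.lattice := fun h => hza (h)
      have d1 : DifferentiableAt ℂ (zt L) z := (zt_deriv L hz).differentiableAt
      have d2 : DifferentiableAt ℂ (fun z => zt L (z + a)) z :=
        (HasDerivAt.comp_add_const z a (zt_deriv L hza)).differentiableAt
      have d3 : DifferentiableAt ℂ (wp L) z := (L.analyticOnNhd_weierstrassP z hz').differentiableAt
      have d4 : DifferentiableAt ℂ (fun z => wp L (z + a)) z :=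
        (HasDerivAt.comp_add_const z a
          (L.analyticOnNhd_weierstrassP _ hza').differentiableAt.hasDerivAt).differentiableAt
      unfold af
      exact (((((d2.sub d1).sub_const _).pow 2).sub d4).sub d3).sub_const _
    apply hd.congr_of_eventuallyEq
    have hc : IsOpen ((L.lattice : Set ℂ)ᶜ) := compl_open L
    have o1 : ∀ᶠ w in 𝓝 z, w ∉ L.lattice := hc.mem_nhds hz
    have o2 : ∀ᶠ w in 𝓝 z, w + a ∉ L.lattice :=
      (hc.preimage (f := fun w : ℂ => w + a) (by fun_prop)).mem_nhds hza
    filter_upwards [o1, o2] with w h1 h2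
    simp [hF, h1, h2]
  have cont0 : ContinuousAt F 0 := by
    rw [continuousAt_iff_punctured_nhds]
    have h0 : F 0 = 0 := by simp [hF, (zero_mem L.lattice)]
    rw [h0]
    refine (af_zero L a ha).congr' ?_
    filter_upwards [near1 0] with w hw
    simp [hF, hw.1, hw.2]
  have conta : ContinuousAt F (-a) := by
    rw [continuousAt_iff_punctured_nhds]
    have h0 : F (-a) = 0 := by simp [hF, (zero_mem L.lattice)]
    rw [h0]
    refine (af_neg_a L a ha).congr' ?_
    filter_upwards [near1 (-a)] with w hw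
    simp [hF, hw.1, hw.2]
  have contL : ∀ x l, l ∈ L.lattice → ContinuousAt F x → ContinuousAt F (x + l) := by
    intro x l hl hx
    have e : F = fun z => F (z + -l) := by
      funext z
      exact (hFper z (-l) (neg_mem hl)).symm
    rw [e]
    have : ContinuousAt F ((fun z : ℂ => z + -l) (x + l)) := by
      simpa using hx
    exact ContinuousAt.comp (f := fun z : ℂ => z + -l) this (by fun_prop)
  have hdiff : Differentiable ℂ F := by
    intro z
    by_cases h : z ∈ L.lattice ∨ z + a ∈ L.lattice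
    · have hc : ContinuousAt F z := by
        rcases h with h | h
        · have := contL 0 z h cont0
          rwa [zero_add] at this
        · have := contL (-a) (z + a) h conta
          have e : -a + (z + a) = z := by ring
          rwa [e] at this
      refine (Complex.analyticAt_of_differentiable_on_punctured_nhds_of_continuousAt ?_
        hc).differentiableAt
      filter_upwards [near1 z] with w hw
      exact diffOff w hw.1 hw.2
    · push Not at h
      exact diffOff z h.1 h.2
  have hconst := hdiff.apply_eq_apply_of_bounded (IsZLattice.isCompact_range_of_periodic L.lattice _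
    hdiff.continuous (fun z w hw => hFper z w (hw))).isBounded z 0
  have h0 : F 0 = 0 := by simp [hF, (zero_mem L.lattice)]
  have h1 : F z = af L a z := by simp [hF, hz, hza]
  rw [← h1, hconst, h0]

/-- addition theorem for the zeta function -/
theorem zt_add (a : ℂ) (ha : a ∉ L.lattice) (z : ℂ) (hz : z ∉ L.lattice) (hza : z + a ∉ L.lattice) :
    (zt L (z + a) - zt L z - zt L a) ^ 2 = wp L (z + a) + wp L z + wp L a := by
  have := af_eq_zero L a ha z hz hza
  unfold af at this
  linear_combination this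

end Pool.Agent.KS6_68.El
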