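import Pool.Agent.KS6_68.El.Add

set_option autoImplicit false

open Complex Filter Topology Set

namespace Pool.Agent.KS6_68.El

variable (L : PeriodPair)

theorem Lam_near2 (a x : ℂ) : ∀ᶠ z in 𝓝[≠] x, z ∉ L.lattice ∧ z + a ∉ L.lattice := by
  have h1 := Lam_near L x
  have h2 := Lam_near L (x + a)
  have ht : Tendsto (fun z => z + a) (𝓝[≠] x) (𝓝[≠] (x + a)) := by
    refine tendsto_nhdsWithin_of_tendsto_nhds_of_eventually_within _ ?_ ?_
    · exact ((continuous_id.add continuous_const).tendsto x).mono_left nhdsWithin_le_nhds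
    · filter_upwards [self_mem_nhdsWithin] with z hz h
      exact hz (by simpa using h)
  exact h1.and (ht.eventually h2)

theorem wp_an {z : ℂ} (hz : z ∉ L.lattice) : AnalyticAt ℂ (wp L) z :=
  L.analyticOnNhd_weierstrassP z (fun h => hz (h))

/-- quasi-periodicity of the sigma function -/
theorem sg_quasi {l c : ℂ} (hl : l ∈ L.lattice) (hc : ∀ z ∉ L.lattice, zt L (z + l) = zt L z + c) :
    ∃ C : ℂ, C ≠ 0 ∧ ∀ z, sg L (z + l) = C * exp (c * z) * sg L z := by
  have A : ∀ z ∉ L.lattice, HasDerivAt (fun z => sg L (z + l) * exp (-(c * z)) / sg L z) 0 z := by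
    intro z hz
    have hzl : z + l ∉ L.lattice := fun h => hz ((add_mem_Lam L hl z).1 h)
    have d1 : HasDerivAt (fun z => sg L (z + l)) (zt L (z + l) * sg L (z + l)) z := by
      have := (sg_diff L (z + l)).hasDerivAt
      rw [sg_deriv L hzl] at this
      exact HasDerivAt.comp_add_const z l this
    have d2 : HasDerivAt (fun z => exp (-(c * z))) (exp (-(c * z)) * (-(c * 1))) z :=
      ((hasDerivAt_id z).const_mul c).neg.cexp
    have d3 : HasDerivAt (sg L) (zt L z * sg L z) z := by
      have := (sg_diff L z).hasDerivAt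
      rwa [sg_deriv L hz] at this
    have := (d1.mul d2).div d3 (sg_ne L hz)
    refine this.congr_deriv ?_
    have hs := sg_ne L hz
    simp only [Pi.mul_apply]
    rw [hc z hz]
    field_simp
    ring
  obtain ⟨C, hC⟩ := (compl_open L).exists_is_const_of_deriv_eq_zero (compl_preconn L)
    (fun z hz => (A z hz).differentiableAt.differentiableWithinAt) (fun z hz => (A z hz).deriv)
  have h1 : ∀ z ∉ L.lattice, sg L (z + l) = C * exp (c * z) * sg L z := by
    intro z hz
    have := hC z hz
    rw [div_eq_iff (sg_ne L hz)] at this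
    have e : exp (-(c * z)) * exp (c * z) = 1 := by rw [← exp_add]; simp
    calc sg L (z + l) = sg L (z + l) * (exp (-(c * z)) * exp (c * z)) := by rw [e, mul_one]
      _ = (sg L (z + l) * exp (-(c * z))) * exp (c * z) := by ring
      _ = _ := by rw [this]; ring
  refine ⟨C, ?_, ?_⟩
  · intro h0
    have h2 := h1 (L.ω₁ / 2) L.ω₁_div_two_notMem_lattice
    rw [h0] at h2
    have h3 : L.ω₁ / 2 + l ∉ L.lattice := fun h => L.ω₁_div_two_notMem_lattice ((add_mem_Lam L hl _).1 h)
    exact sg_ne L h3 (by simpa using h2)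
  · intro z
    have c1 : Tendsto (fun z => sg L (z + l)) (𝓝[≠] z) (𝓝 (sg L (z + l))) := by
      have : Continuous (fun z => sg L (z + l)) := (sg_diff L).continuous.comp (by fun_prop)
      exact (this.tendsto z).mono_left nhdsWithin_le_nhds
    have c2 : Tendsto (fun z => C * exp (c * z) * sg L z) (𝓝[≠] z) (𝓝 (C * exp (c * z) * sg L z)) := by
      have : Continuous (fun z => C * exp (c * z) * sg L z) :=
        (by fun_prop : Continuous (fun z => C * exp (c * z))).mul (sg_diff L).continuous
      exact (this.tendsto z).mono_left nhdsWithin_le_nhds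
    refine tendsto_nhds_unique (c1.congr' ?_) c2
    filter_upwards [Lam_near L z] with w hw
    exact h1 w hw

/-- the Bloch solution of the Lame equation -/
noncomputable def U (a z : ℂ) : ℂ := exp (-(zt L a * z)) * sg L (z + a) / sg L z

theorem U_an (a : ℂ) {z : ℂ} (hz : z ∉ L.lattice) : AnalyticAt ℂ (U L a) z := by
  have h1 : AnalyticAt ℂ (sg L) z := (sg_diff L).analyticAt z
  have h2 : AnalyticAt ℂ (fun z => sg L (z + a)) z := by
    have : Differentiable ℂ (fun z => sg L (z + a)) := (sg_diff L).comp (by fun_prop)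
    exact this.analyticAt z
  have h3 : AnalyticAt ℂ (fun z => exp (-(zt L a * z))) z := by
    have : Differentiable ℂ (fun z => exp (-(zt L a * z))) := by fun_prop
    exact this.analyticAt z
  exact (h3.mul h2).div h1 (sg_ne L hz)

theorem U_d1 (a : ℂ) {z : ℂ} (hz : z ∉ L.lattice) (hza : z + a ∉ L.lattice) :
    HasDerivAt (U L a) (U L a z * (zt L (z + a) - zt L z - zt L a)) z := by
  have d1 : HasDerivAt (fun z => sg L (z + a)) (zt L (z + a) * sg L (z + a)) z := by
    have := (sg_diff L (z + a)).hasDerivAt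
    rw [sg_deriv L hza] at this
    exact HasDerivAt.comp_add_const z a this
  have d2 : HasDerivAt (fun z => exp (-(zt L a * z))) (exp (-(zt L a * z)) * (-(zt L a * 1))) z :=
    ((hasDerivAt_id z).const_mul (zt L a)).neg.cexp
  have d3 : HasDerivAt (sg L) (zt L z * sg L z) z := by
    have := (sg_diff L z).hasDerivAt
    rwa [sg_deriv L hz] at this
  have := (d2.mul d1).div d3 (sg_ne L hz)
  refine this.congr_deriv ?_
  have hs := sg_ne L hz
  unfold U
  simp only [Pi.mul_apply]
  field_simp
  ring

theorem U_d2 {a : ℂ} (ha : a ∉ L.lattice) {z : ℂ} (hz : z ∉ L.lattice) (hza : z + a ∉ L.lattice) :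
    HasDerivAt (deriv (U L a)) ((2 * wp L z + wp L a) * U L a z) z := by
  have o1 : ∀ᶠ w in 𝓝 z, w ∉ L.lattice := (compl_open L).mem_nhds hz
  have o2 : ∀ᶠ w in 𝓝 z, w + a ∉ L.lattice :=
    ((compl_open L).preimage (f := fun w : ℂ => w + a) (by fun_prop)).mem_nhds hza
  have e : deriv (U L a) =ᶠ[𝓝 z] fun w => U L a w * (zt L (w + a) - zt L w - zt L a) := by
    filter_upwards [o1, o2] with w h1 h2
    exact (U_d1 L a h1 h2).deriv
  have d1 : HasDerivAt (fun z => zt L (z + a)) (- wp L (z + a)) z :=
    HasDerivAt.comp_add_const z a (zt_deriv L hza)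
  have d := (U_d1 L a hz hza).mul ((d1.sub (zt_deriv L hz)).sub_const (zt L a))
  refine (d.congr_of_eventuallyEq e).congr_deriv ?_
  simp only [Pi.sub_apply]
  have h := zt_add L a ha z hz hza
  have : U L a z * (zt L (z + a) - zt L z - zt L a) * (zt L (z + a) - zt L z - zt L a)
      + U L a z * (-wp L (z + a) - -L.weierstrassP z)
      = U L a z * ((zt L (z + a) - zt L z - zt L a) ^ 2 - wp L (z + a) + wp L z) := by ring
  rw [this, h]
  ring

/-- the Lame equation -/
theorem U_lame {a : ℂ} (ha : a ∉ L.lattice) {z : ℂ} (hz : z ∉ L.lattice) :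
    deriv (deriv (U L a)) z = (2 * wp L z + wp L a) * U L a z := by
  have c1 : Tendsto (deriv (deriv (U L a))) (𝓝[≠] z) (𝓝 (deriv (deriv (U L a)) z)) :=
    ((U_an L a hz).deriv.deriv.continuousAt.tendsto).mono_left nhdsWithin_le_nhds
  have c2 : Tendsto (fun z => (2 * wp L z + wp L a) * U L a z) (𝓝[≠] z)
      (𝓝 ((2 * wp L z + wp L a) * U L a z)) := by
    have h1 : ContinuousAt (wp L) z := (wp_an L hz).continuousAt
    have h2 : ContinuousAt (U L a) z := (U_an L a hz).continuousAt
    have h3 : ContinuousAt (fun z => (2 * wp L z + wp L a) * U L a z) z :=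
      ((h1.const_mul 2).add_const (wp L a)).mul h2
    exact h3.tendsto.mono_left nhdsWithin_le_nhds
  refine tendsto_nhds_unique (c1.congr' ?_) c2
  filter_upwards [Lam_near2 L a z] with w hw
  exact (U_d2 L ha hw.1 hw.2).deriv

/-- multipliers of the Bloch solution -/
theorem U_mult {l c : ℂ} (hl : l ∈ L.lattice) (hc : ∀ z ∉ L.lattice, zt L (z + l) = zt L z + c) (a z : ℂ) :
    U L a (z + l) = exp (c * a - l * zt L a) * U L a z := by
  obtain ⟨C, hC0, hC⟩ := sg_quasi L hl hc
  unfold U
  rw [show z + l + a = (z + a) + l by ring, hC, hC]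
  have e1 : exp (-(zt L a * (z + l))) * (C * exp (c * (z + a)) * sg L (z + a)) =
      (C * exp (c * z)) * (exp (c * a - l * zt L a) * (exp (-(zt L a * z)) * sg L (z + a))) := by
    have : exp (-(zt L a * (z + l))) * exp (c * (z + a)) =
        exp (c * z) * (exp (c * a - l * zt L a) * exp (-(zt L a * z))) := by
      rw [← exp_add, ← exp_add, ← exp_add]
      congr 1
      ring
    calc _ = C * (exp (-(zt L a * (z + l))) * exp (c * (z + a))) * sg L (z + a) := by ring
      _ = _ := by rw [this]; ring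
  rw [e1, mul_div_mul_left _ _ (mul_ne_zero hC0 (exp_ne_zero _)), mul_div_assoc]

/-- the Legendre relation, in exponential form -/
theorem legendre {l l' c c' : ℂ} (hl : l ∈ L.lattice) (hl' : l' ∈ L.lattice)
    (hc : ∀ z ∉ L.lattice, zt L (z + l) = zt L z + c)
    (hc' : ∀ z ∉ L.lattice, zt L (z + l') = zt L z + c') : exp (c * l' - c' * l) = 1 := by
  obtain ⟨C, hC0, hC⟩ := sg_quasi L hl' hc'
  set a : ℂ := L.ω₁ / 2 with ha
  have haL : a ∉ L.lattice := L.ω₁_div_two_notMem_lattice
  have e1 : ∀ z, U L (a + l') z = C * exp (c' * a) * U L a z := by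
    intro z
    unfold U
    rw [hc' a haL, show z + (a + l') = (z + a) + l' by ring, hC]
    have : exp (-((zt L a + c') * z)) * exp (c' * (z + a)) =
        exp (c' * a) * exp (-(zt L a * z)) := by
      rw [← exp_add, ← exp_add]
      congr 1
      ring
    calc _ = C * (exp (-((zt L a + c') * z)) * exp (c' * (z + a))) * sg L (z + a) / sg L z := by
          ring
      _ = _ := by rw [this]; ring
  obtain ⟨z, hz⟩ := (Lam_near2 L a 0).exists
  have hU : U L a z ≠ 0 := div_ne_zero (mul_ne_zero (exp_ne_zero _) (sg_ne L hz.2)) (sg_ne L hz.1)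
  have h1 := U_mult L hl hc (a + l') z
  have h2 := U_mult L hl hc a z
  rw [e1, e1, h2] at h1
  have h3 : C * exp (c' * a) * U L a z ≠ 0 :=
    mul_ne_zero (mul_ne_zero hC0 (exp_ne_zero _)) hU
  have h4 : exp (c * a - l * zt L a) = exp (c * (a + l') - l * zt L (a + l')) := by
    apply mul_right_cancel₀ h3
    linear_combination h1
  rw [hc' a haL] at h4
  have h5 : exp (c * (a + l') - l * (zt L a + c')) =
      exp (c * a - l * zt L a) * exp (c * l' - c' * l) := by
    rw [← exp_add]
    congr 1
    ring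
  rw [h5] at h4
  exact (mul_right_eq_self₀.1 h4.symm).resolve_right (exp_ne_zero _)

end Pool.Agent.KS6_68.El
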