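import Pool.Agent.KS6_68.El.Add
import Pool.Agent.KS6_68.El.KS

/-! Even functions which are periodic with respect to a lattice descend through `℘`. -/

set_option autoImplicit false

open Complex Filter Topology Set

namespace Pool.Agent.KS6_68.El

variable (L : PeriodPair)

theorem neg_notMem {z : ℂ} (hz : z ∉ L.lattice) : -z ∉ L.lattice := fun h => hz (by
  simpa using neg_mem h)

theorem wp_an' {z : ℂ} (hz : z ∉ L.lattice) : AnalyticAt ℂ L.weierstrassP z :=
  L.analyticOnNhd_weierstrassP z hz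

theorem wpd_near {a : ℂ} (ha : a ∉ L.lattice) :
    ∀ᶠ z in 𝓝[≠] a, L.derivWeierstrassP z ≠ 0 := by
  rcases (L.analyticOnNhd_derivWeierstrassP a ha).eventually_eq_zero_or_eventually_ne_zero with h | h
  · exfalso
    refine wp_inj_not_const L ?_
    exact L.analyticOnNhd_derivWeierstrassP.eqOn_zero_of_preconnected_of_eventuallyEq_zero
      (compl_preconn L) ha h
  · exact h

theorem wp_open {a : ℂ} (ha : a ∉ L.lattice) :
    𝓝 (L.weierstrassP a) ≤ map L.weierstrassP (𝓝 a) := by
  rcases (wp_an' L ha).eventually_constant_or_nhds_le_map_nhds with h | h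
  · exfalso
    have h1 : ∀ᶠ z in 𝓝 a, L.derivWeierstrassP z = 0 := by
      filter_upwards [h.eventually_nhds] with z hz
      have h2 : L.weierstrassP =ᶠ[𝓝 z] fun _ => L.weierstrassP a := hz
      have h3 := h2.deriv_eq
      rw [L.deriv_weierstrassP] at h3
      rw [h3, deriv_const]
    obtain ⟨z, hz1, hz2⟩ := ((h1.filter_mono (nhdsWithin_le_nhds (s := {a}ᶜ))).and
      (wpd_near L ha)).exists
    exact hz2 hz1
  · exact h

theorem descend {F : ℂ → ℂ} (hF : ∀ z ∉ L.lattice, AnalyticAt ℂ F z)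
    (heven : ∀ z ∉ L.lattice, F (-z) = F z)
    (hper : ∀ l ∈ L.lattice, ∀ z ∉ L.lattice, F (z + l) = F z) :
    ∃ s : ℂ → ℂ, Differentiable ℂ s ∧ ∀ z ∉ L.lattice, s (L.weierstrassP z) = F z := by
  choose σ hσ1 hσ2 using wp_surj L
  set s : ℂ → ℂ := fun x => F (σ x) with hs
  have hsF : ∀ z ∉ L.lattice, s (L.weierstrassP z) = F z := by
    intro z hz
    show F (σ (L.weierstrassP z)) = F z
    rcases wp_inj L (σ (L.weierstrassP z)) z (hσ1 _) hz (hσ2 _) with h | h
    · have := hper _ h z hz
      rw [← this]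
      congr 1
      ring
    · have := hper _ h (-z) (neg_notMem L hz)
      rw [← heven z hz, ← this]
      congr 1
      ring
  have hcomp : ∀ a ∉ L.lattice, ∀ᶠ z in 𝓝 a, s (L.weierstrassP z) = F z := by
    intro a ha
    filter_upwards [(compl_open L).mem_nhds ha] with z hz using hsF z hz
  have hcont : ∀ x, ContinuousAt s x := by
    intro x
    set a := σ x with ha
    have haL : a ∉ L.lattice := hσ1 x
    have hax : L.weierstrassP a = x := hσ2 x
    have h1 := wp_open L haL
    rw [hax] at h1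
    show Tendsto s (𝓝 x) (𝓝 (s x))
    refine Tendsto.mono_left ?_ h1
    rw [tendsto_map'_iff]
    have h2 : Tendsto F (𝓝 a) (𝓝 (s x)) := (hF a haL).continuousAt
    refine h2.congr' ?_
    filter_upwards [hcomp a haL] with z hz using hz.symm
  have hd1 : ∀ a ∉ L.lattice, L.derivWeierstrassP a ≠ 0 → DifferentiableAt ℂ s (L.weierstrassP a) := by
    intro a ha hda
    have hda' : deriv L.weierstrassP a ≠ 0 := by
      rw [L.deriv_weierstrassP]
      exact hda
    have han := wp_an' L ha
    set J : ℂ → ℂ := han.hasStrictDerivAt.localInverse _ _ _ hda' with hJ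
    have Ja : AnalyticAt ℂ J (L.weierstrassP a) := han.analyticAt_localInverse hda'
    have J0 : J (L.weierstrassP a) = a := HasStrictFDerivAt.localInverse_apply_image ..
    have hr : ∀ᶠ y in 𝓝 (L.weierstrassP a), L.weierstrassP (J y) = y :=
      HasStrictDerivAt.eventually_right_inverse ..
    have hJt : Tendsto J (𝓝 (L.weierstrassP a)) (𝓝 a) := by
      have := Ja.continuousAt.tendsto
      rwa [J0] at this
    have he : s =ᶠ[𝓝 (L.weierstrassP a)] fun y => F (J y) := by
      filter_upwards [hr, hJt.eventually (hcomp a ha)] with y h1 h2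
      rw [← h2, h1]
    have h3 : AnalyticAt ℂ (fun y => F (J y)) (L.weierstrassP a) :=
      AnalyticAt.comp (g := F) (by rw [J0]; exact hF a ha) Ja
    exact h3.differentiableAt.congr_of_eventuallyEq he
  refine ⟨s, fun x => ?_, hsF⟩
  refine (Complex.analyticAt_of_differentiable_on_punctured_nhds_of_continuousAt ?_
    (hcont x)).differentiableAt
  set a := σ x with ha
  have haL : a ∉ L.lattice := hσ1 x
  have hax : L.weierstrassP a = x := hσ2 x
  have h1 := wp_open L haL
  rw [hax] at h1
  have h2 : ∀ᶠ z in 𝓝 a, z ≠ a → L.derivWeierstrassP z ≠ 0 :=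
    eventually_nhdsWithin_iff.1 (wpd_near L haL)
  have h3 : ∀ᶠ z in 𝓝 a, z ∉ L.lattice := (compl_open L).mem_nhds haL
  have h4 : L.weierstrassP '' {z | (z ≠ a → L.derivWeierstrassP z ≠ 0) ∧ z ∉ L.lattice} ∈ 𝓝 x :=
    h1 (image_mem_map (h2.and h3))
  rw [eventually_nhdsWithin_iff]
  filter_upwards [h4] with y hy hyx
  obtain ⟨z, ⟨hz1, hz2⟩, rfl⟩ := hy
  refine hd1 z hz2 (hz1 ?_)
  rintro rfl
  exact hyx hax

end Pool.Agent.KS6_68.El
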