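import Pool.Agent.KS6_68.El.Rect

/-! A family of real potentials with a reducible Fermi variety. -/

set_option autoImplicit false

open Complex Filter Topology Set
open Pool.Agent.KS6_68.FV

namespace Pool.Agent.KS6_68.El

theorem family (N M : ℕ) (hN : 0 < N) (hM : 0 < M) :
    ∃ L : PeriodPair, L.ω₁ = 1 / N ∧ L.ω₂ = I / M ∧ ∃ v1 v2 : ℝ → ℝ,
      (∀ x : ℝ, (v1 x : ℂ) = 2 * L.weierstrassP (x + I / (2 * M))) ∧
      (∀ y : ℝ, (v2 y : ℂ) = -2 * L.weierstrassP (I * y + 1 / (2 * N))) ∧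
      AnalyticOnNhd ℝ v1 univ ∧ AnalyticOnNhd ℝ v2 univ ∧
      (∀ x, v1 (x + 1) = v1 x) ∧ (∀ y, v2 (y + 1) = v2 y) ∧
      (∃ x x', v1 x ≠ v1 x') ∧ (∃ y y', v2 y ≠ v2 y') ∧
      Reducible torusC (quasi '' fermi (fun x y => v1 x + v2 y) 0) ∧
      ReducibleInvariant (fermi (fun x y => v1 x + v2 y) 0) := by
  have hN' : (0 : ℝ) < N := Nat.cast_pos.2 hN
  have hM' : (0 : ℝ) < M := Nat.cast_pos.2 hM
  have hNc : (N : ℂ) ≠ 0 := Nat.cast_ne_zero.2 hN.ne'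
  have hMc : (M : ℂ) ≠ 0 := Nat.cast_ne_zero.2 hM.ne'
  set a : ℝ := 1 / N with ha
  set b : ℝ := 1 / M with hb
  have ha0 : 0 < a := by positivity
  have hb0 : 0 < b := by positivity
  set L : PeriodPair := ⟨a, b * I, rect_indep ha0.ne' hb0.ne'⟩ with hL
  have h1 : L.ω₁ = a := rfl
  have h2 : L.ω₂ = b * I := rfl
  have m1 : (1 : ℂ) ∈ L.lattice := by
    rw [mem_rect h1 h2]
    refine ⟨N, 0, ?_⟩
    rw [ha]
    push_cast
    field_simp
    ring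
  have mI : I ∈ L.lattice := by
    rw [mem_rect h1 h2]
    refine ⟨0, M, ?_⟩
    rw [hb]
    push_cast
    field_simp
    ring
  set v1 : ℝ → ℝ := fun x => (2 * (1 : ℂ) ^ 2 * L.weierstrassP ((1 : ℂ) * x + b / 2 * I)).re with hv1
  set v2 : ℝ → ℝ := fun x => (2 * I ^ 2 * L.weierstrassP (I * x + a / 2)).re with hv2
  have e1 : ∀ x : ℝ, (v1 x : ℂ) = 2 * (1 : ℂ) ^ 2 * L.weierstrassP ((1 : ℂ) * x + b / 2 * I) :=
    fun x => real1 h1 h2 x
  have e2 : ∀ x : ℝ, (v2 x : ℂ) = 2 * I ^ 2 * L.weierstrassP (I * x + a / 2) :=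
    fun x => real2 h1 h2 x
  have l1 := line1 h1 h2 ha0 hb0
  have l2 := line2 h1 h2 ha0 hb0
  have a1 : ∀ x, AnalyticAt ℝ v1 x := line_an L l1 e1
  have a2 : ∀ x, AnalyticAt ℝ v2 x := line_an L l2 e2
  have p1 : ∀ x, v1 (x + 1) = v1 x := by
    intro x
    show (2 * (1 : ℂ) ^ 2 * L.weierstrassP ((1 : ℂ) * ((x + 1 : ℝ) : ℂ) + b / 2 * I)).re =
      (2 * (1 : ℂ) ^ 2 * L.weierstrassP ((1 : ℂ) * x + b / 2 * I)).re
    have e : (1 : ℂ) * ((x + 1 : ℝ) : ℂ) + b / 2 * I = ((1 : ℂ) * x + b / 2 * I) + 1 := by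
      push_cast; ring
    have h3 : L.weierstrassP (((1 : ℂ) * x + b / 2 * I) + 1) =
        L.weierstrassP ((1 : ℂ) * x + b / 2 * I) := wp_add L m1 _
    rw [e, h3]
  have p2 : ∀ x, v2 (x + 1) = v2 x := by
    intro x
    show (2 * I ^ 2 * L.weierstrassP (I * ((x + 1 : ℝ) : ℂ) + a / 2)).re =
      (2 * I ^ 2 * L.weierstrassP (I * x + a / 2)).re
    have e : I * ((x + 1 : ℝ) : ℂ) + a / 2 = (I * x + a / 2) + I := by
      push_cast; ring
    have h3 : L.weierstrassP ((I * x + a / 2) + I) = L.weierstrassP (I * x + a / 2) :=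
      wp_add L mI _
    rw [e, h3]
  have c1 : Continuous v1 := continuous_iff_continuousAt.2 fun x => (a1 x).continuousAt
  have c2 : Continuous v2 := continuous_iff_continuousAt.2 fun x => (a2 x).continuousAt
  obtain ⟨D1, hD1, -⟩ := exists_disc c1 p1
  obtain ⟨D2, hD2, -⟩ := exists_disc c2 p2
  obtain ⟨⟨b1, P1⟩, q1⟩ := hD1.props c1 p1
  obtain ⟨⟨b2, P2⟩, q2⟩ := hD2.props c2 p2
  obtain ⟨c, hc⟩ := zt_lat L m1
  obtain ⟨e, he⟩ := zt_lat L mI
  obtain ⟨s, hs, hs2⟩ := pair_sqrt L (D1 := D1) (D2 := D2) m1 mI hc he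
    (fun α hα => by
      have h := (q1 _ _).1 (mult_line L m1 hc l1 (x1_notMem h1 h2 ha0 hb0) e1 hα)
      rw [one_pow, one_mul] at h
      exact h.2)
    (fun α hα => by
      have h := (q2 _ _).1 (mult_line L mI he l2 (y1_notMem h1 h2 ha0 hb0) e2 hα)
      rw [I_sq, neg_one_mul, neg_neg] at h
      exact h.2)
  have hred : Reducible torusC (quasi '' fermi (fun x y => v1 x + v2 y) 0) := by
    rw [image_fermi c1 c2 p1 p2 hD1 hD2]
    exact reducible_of_sqrt P1 P2 0 rfl hs hs2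
  refine ⟨L, ?_, ?_, v1, v2, fun x => ?_, fun y => ?_, fun x _ => a1 x, fun x _ => a2 x, p1, p2,
    line_nonconst L one_ne_zero l1 (x2_notMem h1 h2 ha0 hb0) e1,
    line_nonconst L I_ne_zero l2 (y2_notMem h1 h2 ha0 hb0) e2, hred,
    (red_inv_iff c1 c2 p1 p2 hD1 hD2 0).2 hred⟩
  · rw [h1, ha]; push_cast; rfl
  · rw [h2, hb]; push_cast; ring
  · rw [e1, hb]
    have e : (1 : ℂ) * x + ((1 / M : ℝ) : ℂ) / 2 * I = x + I / (2 * M) := by
      push_cast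
      field_simp
    rw [e]; ring
  · rw [e2, ha]
    have e : I * y + ((1 / N : ℝ) : ℂ) / 2 = I * y + 1 / (2 * N) := by
      push_cast
      field_simp
    rw [e, I_sq]; ring

end Pool.Agent.KS6_68.El
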