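import Pool.Agent.KS6_68.El.Bloch
import Pool.Agent.KS6_68.El.Desc
import Pool.Agent.KS6_68.FV.Class

/-! Lamé potentials along a line and their Floquet multipliers. -/

set_option autoImplicit false

open Complex Filter Topology Set
open Pool.Agent.KS6_68.FV

namespace Pool.Agent.KS6_68.El

variable (L : PeriodPair)

/-- the Floquet multiplier as a function of the spectral parameter -/
noncomputable def hm (d c α : ℂ) : ℂ := exp (c * α - d * zt L α)

theorem hm_ne (d c α : ℂ) : hm L d c α ≠ 0 := exp_ne_zero _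

theorem hm_neg (d c α : ℂ) : hm L d c (-α) = (hm L d c α)⁻¹ := by
  unfold hm
  rw [zt_neg, ← exp_neg]
  congr 1
  ring

theorem hm_per {d c : ℂ} (hd : d ∈ L.lattice) (hc : ∀ z ∉ L.lattice, zt L (z + d) = zt L z + c)
    {l : ℂ} (hl : l ∈ L.lattice) {α : ℂ} (hα : α ∉ L.lattice) : hm L d c (α + l) = hm L d c α := by
  obtain ⟨e, he⟩ := zt_lat L hl
  have h := legendre L hd hl hc he
  unfold hm
  rw [he α hα]
  have h5 : exp (c * (α + l) - d * (zt L α + e)) =
      exp (c * α - d * zt L α) * exp (c * l - e * d) := by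
    rw [← exp_add]
    congr 1
    ring
  rw [h5, h, mul_one]

theorem hm_an (d c : ℂ) {α : ℂ} (hα : α ∉ L.lattice) : AnalyticAt ℂ (hm L d c) α := by
  have h1 : AnalyticAt ℂ (zt L) α := by
    have : DifferentiableOn ℂ (zt L) (L.lattice : Set ℂ)ᶜ := fun z hz =>
      (zt_deriv L hz).differentiableAt.differentiableWithinAt
    exact this.analyticAt ((compl_open L).mem_nhds hα)
  exact ((analyticAt_const.mul analyticAt_id).sub (analyticAt_const.mul h1)).cexp

theorem line_deriv {f : ℂ → ℂ} {f' d p : ℂ} {x : ℝ} (h : HasDerivAt f f' (d * x + p)) :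
    HasDerivAt (fun y : ℝ => f (d * y + p)) (d * f') x := by
  have h1 : HasDerivAt (fun z : ℂ => d * z + p) (d * 1) (x : ℂ) :=
    ((hasDerivAt_id (x : ℂ)).const_mul d).add_const p
  have h2 := (HasDerivAt.comp (x : ℂ) h h1).comp_ofReal
  exact h2.congr_deriv (by ring)

theorem mult_line {d p c : ℂ} (hd : d ∈ L.lattice)
    (hc : ∀ z ∉ L.lattice, zt L (z + d) = zt L z + c) (hp : ∀ x : ℝ, d * x + p ∉ L.lattice)
    {x1 : ℝ} (hx1 : d * x1 ∉ L.lattice) {v : ℝ → ℝ}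
    (hv : ∀ x : ℝ, (v x : ℂ) = 2 * d ^ 2 * L.weierstrassP (d * x + p)) {α : ℂ}
    (hα : α ∉ L.lattice) : Mult v (-(d ^ 2 * L.weierstrassP α)) (hm L d c α) := by
  refine ⟨fun x => U L α (d * x + p), fun x => d * deriv (U L α) (d * x + p), ⟨fun x => ?_,
    fun x => ?_⟩, fun x => ?_, ?_⟩
  · exact line_deriv (U_an L α (hp x)).differentiableAt.hasDerivAt
  · have h1 : HasDerivAt (deriv (U L α)) ((2 * L.weierstrassP (d * x + p) + L.weierstrassP α) *
        U L α (d * x + p)) (d * x + p) := by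
      have := (U_an L α (hp x)).deriv.differentiableAt.hasDerivAt
      rwa [U_lame L hα (hp x)] at this
    refine ((line_deriv h1).const_mul d).congr_deriv ?_
    show _ = ((v x : ℂ) - -(d ^ 2 * L.weierstrassP α)) * U L α (d * x + p)
    rw [hv]
    ring
  · have h := U_mult L hd hc α (d * x + p)
    show U L α (d * ((x + 1 : ℝ) : ℂ) + p) = hm L d c α * U L α (d * x + p)
    have e : d * ((x + 1 : ℝ) : ℂ) + p = d * x + p + d := by push_cast; ring
    rw [e, h]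
    rfl
  · have hU : ∀ x : ℝ, d * x + p + α ∉ L.lattice → U L α (d * x + p) ≠ 0 := by
      intro x hx
      exact div_ne_zero (mul_ne_zero (exp_ne_zero _) (sg_ne L hx)) (sg_ne L (hp x))
    by_cases h0 : d * (0 : ℝ) + p + α ∈ L.lattice
    · refine ⟨x1, hU x1 fun h1 => hx1 ?_⟩
      have h2 := sub_mem h1 h0
      have e : d * (x1 : ℂ) + p + α - (d * ((0 : ℝ) : ℂ) + p + α) = d * x1 := by
        push_cast; ring
      rwa [e] at h2
    · exact ⟨0, hU 0 h0⟩

theorem line_an {d p : ℂ} (hp : ∀ x : ℝ, d * x + p ∉ L.lattice) {v : ℝ → ℝ}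
    (hv : ∀ x : ℝ, (v x : ℂ) = 2 * d ^ 2 * L.weierstrassP (d * x + p)) (x : ℝ) :
    AnalyticAt ℝ v x := by
  have h0 : AnalyticAt ℝ (fun y : ℝ => d * (y : ℂ) + p) x :=
    (analyticAt_const.mul (Complex.ofRealCLM.analyticAt x)).add analyticAt_const
  have h1 : AnalyticAt ℝ L.weierstrassP (d * x + p) := (wp_an' L (hp x)).restrictScalars
  have h2 : AnalyticAt ℝ (fun y : ℝ => L.weierstrassP (d * (y : ℂ) + p)) x :=
    AnalyticAt.comp (g := L.weierstrassP) (f := fun y : ℝ => d * (y : ℂ) + p) h1 h0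
  have h3 : AnalyticAt ℝ (fun y : ℝ => 2 * d ^ 2 * L.weierstrassP (d * (y : ℂ) + p)) x :=
    analyticAt_const.mul h2
  have h4 : v = fun y : ℝ => (2 * d ^ 2 * L.weierstrassP (d * (y : ℂ) + p)).re := by
    funext y
    rw [← hv, Complex.ofReal_re]
  rw [h4]
  exact (Complex.reCLM.analyticAt _).comp h3

theorem line_nonconst {d p : ℂ} (hd : d ≠ 0) (hp : ∀ x : ℝ, d * x + p ∉ L.lattice) {x2 : ℝ}
    (hx2 : 2 * (d * x2 + p) ∉ L.lattice) {v : ℝ → ℝ}
    (hv : ∀ x : ℝ, (v x : ℂ) = 2 * d ^ 2 * L.weierstrassP (d * x + p)) :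
    ∃ x y, v x ≠ v y := by
  by_contra hc
  push Not at hc
  have h1 : (fun x : ℝ => 2 * d ^ 2 * L.weierstrassP (d * x + p)) = fun _ => (v 0 : ℂ) := by
    funext x
    rw [← hv, hc x 0]
  have h2 := (line_deriv (wp_inj_hasDeriv L _ (hp x2))).const_mul (2 * d ^ 2)
  rw [h1] at h2
  have h3 := h2.unique (hasDerivAt_const x2 (v 0 : ℂ))
  have h4 : L.derivWeierstrassP (d * x2 + p) = 0 := by
    have h5 : (2 * d ^ 2 * d) * L.derivWeierstrassP (d * x2 + p) = 0 := by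
      linear_combination h3
    exact (mul_eq_zero.1 h5).resolve_left (by simp [hd])
  exact wpd_ne L _ hx2 h4

/-- the square root -/
theorem pair_sqrt {c e : ℂ} (h1 : (1 : ℂ) ∈ L.lattice) (hI : I ∈ L.lattice)
    (hc : ∀ z ∉ L.lattice, zt L (z + 1) = zt L z + c)
    (he : ∀ z ∉ L.lattice, zt L (z + I) = zt L z + e) {D1 D2 : ℂ → ℂ}
    (hD1 : ∀ α ∉ L.lattice, D1 (-(L.weierstrassP α)) = hm L 1 c α + (hm L 1 c α)⁻¹)
    (hD2 : ∀ α ∉ L.lattice, D2 (L.weierstrassP α) = hm L I e α + (hm L I e α)⁻¹) :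
    ∃ s : ℂ → ℂ, Differentiable ℂ s ∧
      ∀ E, s E ^ 2 = dd D1 E * dd (fun E => D2 (0 - E)) E := by
  set F : ℂ → ℂ := fun α => (hm L 1 c α - (hm L 1 c α)⁻¹) * (hm L I e α - (hm L I e α)⁻¹) with hF
  have q1 : ∀ z ∉ L.lattice, AnalyticAt ℂ F z := by
    intro z hz
    have a1 := hm_an L 1 c hz
    have a2 := hm_an L I e hz
    exact (a1.sub (a1.inv (hm_ne L 1 c z))).mul (a2.sub (a2.inv (hm_ne L I e z)))
  have q2 : ∀ z ∉ L.lattice, F (-z) = F z := by
    intro z _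
    show (hm L 1 c (-z) - (hm L 1 c (-z))⁻¹) * (hm L I e (-z) - (hm L I e (-z))⁻¹) = F z
    rw [hm_neg, hm_neg, inv_inv, inv_inv, hF]
    ring
  have q3 : ∀ l ∈ L.lattice, ∀ z ∉ L.lattice, F (z + l) = F z := by
    intro l hl z hz
    show (hm L 1 c (z + l) - (hm L 1 c (z + l))⁻¹) * (hm L I e (z + l) - (hm L I e (z + l))⁻¹) = F z
    rw [hm_per L h1 hc hl hz, hm_per L hI he hl hz]
  obtain ⟨s, hs, hsF⟩ := descend L q1 q2 q3
  refine ⟨fun E => s (-E), hs.comp differentiable_neg, fun E => ?_⟩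
  obtain ⟨α, hα, hE⟩ := wp_surj L (-E)
  have hE' : E = -L.weierstrassP α := by rw [hE, neg_neg]
  show s (-E) ^ 2 = (D1 E ^ 2 - 4) * (D2 (0 - E) ^ 2 - 4)
  have e2 : 0 - E = L.weierstrassP α := by rw [hE]; ring
  rw [e2, hD2 α hα, hE', hD1 α hα, neg_neg, hsF α hα, hF]
  have n1 := hm_ne L 1 c α
  have n2 := hm_ne L I e α
  field_simp
  ring

end Pool.Agent.KS6_68.El
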