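import Pool.Agent.KS6_68.El.Line

/-! Rectangular lattices. -/

set_option autoImplicit false

open Complex Filter Topology Set
open Pool.Agent.KS6_68.FV

namespace Pool.Agent.KS6_68.El

theorem rect_indep {a b : ℝ} (ha : a ≠ 0) (hb : b ≠ 0) :
    LinearIndependent ℝ ![(a : ℂ), (b : ℂ) * I] := by
  rw [LinearIndependent.pair_iff]
  intro s t h
  have h1 := congrArg Complex.re h
  have h2 := congrArg Complex.im h
  simp at h1 h2
  exact ⟨h1.resolve_right ha, h2.resolve_right hb⟩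

variable {L : PeriodPair} {a b : ℝ} (h1 : L.ω₁ = a) (h2 : L.ω₂ = b * I) (ha : 0 < a) (hb : 0 < b)

include h1 h2

theorem mem_rect (z : ℂ) : z ∈ L.lattice ↔ ∃ m n : ℤ, z = m * a + n * (b * I) := by
  rw [PeriodPair.mem_lattice, h1, h2]
  constructor
  · rintro ⟨m, n, h⟩
    exact ⟨m, n, h.symm⟩
  · rintro ⟨m, n, h⟩
    exact ⟨m, n, h.symm⟩

theorem conj_mem {l : ℂ} (hl : l ∈ L.lattice) : (starRingEnd ℂ) l ∈ L.lattice := by
  rw [mem_rect h1 h2] at hl ⊢
  obtain ⟨m, n, rfl⟩ := hl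
  refine ⟨m, -n, ?_⟩
  simp

theorem wp_conj (z : ℂ) : L.weierstrassP ((starRingEnd ℂ) z) = (starRingEnd ℂ) (L.weierstrassP z) := by
  let e : L.lattice ≃ L.lattice :=
    { toFun := fun l => ⟨(starRingEnd ℂ) l.1, conj_mem h1 h2 l.2⟩
      invFun := fun l => ⟨(starRingEnd ℂ) l.1, conj_mem h1 h2 l.2⟩
      left_inv := fun l => by
        apply Subtype.ext
        show (starRingEnd ℂ) ((starRingEnd ℂ) l.1) = l.1
        simp
      right_inv := fun l => by
        apply Subtype.ext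
        show (starRingEnd ℂ) ((starRingEnd ℂ) l.1) = l.1
        simp }
  unfold PeriodPair.weierstrassP
  rw [← e.tsum_eq, Complex.conj_tsum]
  congr with l
  show 1 / ((starRingEnd ℂ) z - (starRingEnd ℂ) l.1) ^ 2 - 1 / ((starRingEnd ℂ) l.1) ^ 2 = _
  simp

include ha hb

theorem re_im_mem {z : ℂ} (hz : z ∈ L.lattice) : ∃ m n : ℤ, z.re = m * a ∧ z.im = n * b := by
  rw [mem_rect h1 h2] at hz
  obtain ⟨m, n, rfl⟩ := hz
  exact ⟨m, n, by simp, by simp⟩

theorem line1 (x : ℝ) : (1 : ℂ) * x + b / 2 * I ∉ L.lattice := by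
  intro h
  obtain ⟨m, n, -, h4⟩ := re_im_mem h1 h2 ha hb h
  have h5 : ((1 : ℂ) * x + b / 2 * I).im = b / 2 := by
    have : (b / 2 : ℂ) = ((b / 2 : ℝ) : ℂ) := by push_cast; ring
    rw [one_mul, this]
    simp
  rw [h5] at h4
  have h6 : (1 : ℝ) = 2 * n := by
    have : b * 1 = b * (2 * n) := by linarith
    exact mul_left_cancel₀ hb.ne' this
  have h8 : (1 : ℤ) = 2 * n := by exact_mod_cast h6
  omega

theorem line2 (x : ℝ) : I * x + a / 2 ∉ L.lattice := by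
  intro h
  obtain ⟨m, n, h3, -⟩ := re_im_mem h1 h2 ha hb h
  have h5 : (I * x + a / 2 : ℂ).re = a / 2 := by
    have : (a / 2 : ℂ) = ((a / 2 : ℝ) : ℂ) := by push_cast; ring
    rw [this]
    simp
  rw [h5] at h3
  have h6 : (1 : ℝ) = 2 * m := by
    have : a * 1 = a * (2 * m) := by linarith
    exact mul_left_cancel₀ ha.ne' this
  have h8 : (1 : ℤ) = 2 * m := by exact_mod_cast h6
  omega

theorem x1_notMem : (1 : ℂ) * ((a / 2 : ℝ) : ℂ) ∉ L.lattice := by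
  intro h
  obtain ⟨m, n, h3, -⟩ := re_im_mem h1 h2 ha hb h
  have h5 : ((1 : ℂ) * ((a / 2 : ℝ) : ℂ)).re = a / 2 := by
    rw [one_mul, Complex.ofReal_re]
  rw [h5] at h3
  have h6 : (1 : ℝ) = 2 * m := by
    have : a * 1 = a * (2 * m) := by linarith
    exact mul_left_cancel₀ ha.ne' this
  have h8 : (1 : ℤ) = 2 * m := by exact_mod_cast h6
  omega

theorem y1_notMem : I * ((b / 2 : ℝ) : ℂ) ∉ L.lattice := by
  intro h
  obtain ⟨m, n, -, h3⟩ := re_im_mem h1 h2 ha hb h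
  have h5 : (I * ((b / 2 : ℝ) : ℂ)).im = b / 2 := by
    simp
  rw [h5] at h3
  have h6 : (1 : ℝ) = 2 * n := by
    have : b * 1 = b * (2 * n) := by linarith
    exact mul_left_cancel₀ hb.ne' this
  have h8 : (1 : ℤ) = 2 * n := by exact_mod_cast h6
  omega

theorem x2_notMem : 2 * ((1 : ℂ) * ((a / 4 : ℝ) : ℂ) + b / 2 * I) ∉ L.lattice := by
  intro h
  obtain ⟨m, n, h3, -⟩ := re_im_mem h1 h2 ha hb h
  have h5 : (2 * ((1 : ℂ) * ((a / 4 : ℝ) : ℂ) + b / 2 * I)).re = a / 2 := by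
    have e : 2 * ((1 : ℂ) * ((a / 4 : ℝ) : ℂ) + b / 2 * I) =
        ((a / 2 : ℝ) : ℂ) + (b : ℂ) * I := by push_cast; ring
    rw [e]
    simp
  rw [h5] at h3
  have h6 : (1 : ℝ) = 2 * m := by
    have : a * 1 = a * (2 * m) := by linarith
    exact mul_left_cancel₀ ha.ne' this
  have h8 : (1 : ℤ) = 2 * m := by exact_mod_cast h6
  omega

theorem y2_notMem : 2 * (I * ((b / 4 : ℝ) : ℂ) + a / 2) ∉ L.lattice := by
  intro h
  obtain ⟨m, n, -, h3⟩ := re_im_mem h1 h2 ha hb h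
  have h5 : (2 * (I * ((b / 4 : ℝ) : ℂ) + a / 2)).im = b / 2 := by
    have e : 2 * (I * ((b / 4 : ℝ) : ℂ) + a / 2) =
        (a : ℂ) + ((b / 2 : ℝ) : ℂ) * I := by push_cast; ring
    rw [e]
    simp
  rw [h5] at h3
  have h6 : (1 : ℝ) = 2 * n := by
    have : b * 1 = b * (2 * n) := by linarith
    exact mul_left_cancel₀ hb.ne' this
  have h8 : (1 : ℤ) = 2 * n := by exact_mod_cast h6
  omega

omit ha hb in
theorem real1 (x : ℝ) : ((2 * (1 : ℂ) ^ 2 * L.weierstrassP ((1 : ℂ) * x + b / 2 * I)).re : ℂ) =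
    2 * (1 : ℂ) ^ 2 * L.weierstrassP ((1 : ℂ) * x + b / 2 * I) := by
  refine Complex.conj_eq_iff_re.1 ?_
  have c2 : (starRingEnd ℂ) 2 = 2 := map_ofNat _ 2
  rw [map_mul, ← wp_conj h1 h2, map_mul, c2, map_pow, map_one]
  have e : (starRingEnd ℂ) ((1 : ℂ) * x + b / 2 * I) = ((1 : ℂ) * x + b / 2 * I) + -(b * I) := by
    rw [map_add, map_mul, map_mul, map_div₀, map_one, Complex.conj_ofReal, Complex.conj_ofReal,
      c2, Complex.conj_I]
    ring
  have hm : -(b * I : ℂ) ∈ L.lattice := by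
    rw [mem_rect h1 h2]
    exact ⟨0, -1, by simp⟩
  have h3 : L.weierstrassP (((1 : ℂ) * x + b / 2 * I) + -(b * I)) =
      L.weierstrassP ((1 : ℂ) * x + b / 2 * I) := wp_add L hm _
  rw [e, h3]

omit ha hb in
theorem real2 (x : ℝ) : ((2 * I ^ 2 * L.weierstrassP (I * x + a / 2)).re : ℂ) =
    2 * I ^ 2 * L.weierstrassP (I * x + a / 2) := by
  refine Complex.conj_eq_iff_re.1 ?_
  have c2 : (starRingEnd ℂ) 2 = 2 := map_ofNat _ 2
  rw [map_mul, ← wp_conj h1 h2, map_mul, c2, map_pow, Complex.conj_I]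
  have e : (starRingEnd ℂ) (I * x + a / 2) = -((I * x + a / 2) + -(a : ℂ)) := by
    rw [map_add, map_mul, map_div₀, Complex.conj_ofReal, Complex.conj_ofReal, c2, Complex.conj_I]
    ring
  have hm : -(a : ℂ) ∈ L.lattice := by
    rw [mem_rect h1 h2]
    exact ⟨-1, 0, by simp⟩
  have h3 : L.weierstrassP ((I * x + a / 2) + -(a : ℂ)) = L.weierstrassP (I * x + a / 2) :=
    wp_add L hm _
  rw [e, L.weierstrassP_neg, h3, neg_sq]

end Pool.Agent.KS6_68.El
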